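import Pool.Agent.V5helper99.DC.Defs

set_option autoImplicit false

namespace DC99

open Module

private theorem J4_term {n : ℕ} (W A : Finset (Fin n)) (i : Fin n) :
    (if i ∈ W then (-1 : ℝ) else 1) * (pt A) i = if i ∈ symmDiff A W then -1 else 1 := by
  simp only [pt, Finset.mem_symmDiff]
  by_cases h1 : i ∈ W <;> by_cases h2 : i ∈ A <;> simp [h1, h2]

private theorem J4_even {n : ℕ} (W S : Finset (Fin n)) (hS : S.Nonempty) :
    ∃ B : Finset (Fin n), Even B.card ∧ symmDiff B W ⊆ S := by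
  obtain ⟨s, hs⟩ := hS
  by_cases hW : Even W.card
  · exact ⟨W, hW, by simp⟩
  rw [Nat.not_even_iff_odd] at hW
  by_cases hsW : s ∈ W
  · refine ⟨W.erase s, ?_, ?_⟩
    · rw [Finset.card_erase_of_mem hsW]
      obtain ⟨k, hk⟩ := hW
      exact ⟨k, by omega⟩
    · intro x hx
      simp only [Finset.mem_symmDiff, Finset.mem_erase, not_and, ne_eq, not_not] at hx
      have : x = s := by tauto
      rw [this]; exact hs
  · refine ⟨insert s W, ?_, ?_⟩
    · rw [Finset.card_insert_of_notMem hsW]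
      obtain ⟨k, hk⟩ := hW
      exact ⟨k + 1, by omega⟩
    · intro x hx
      simp only [Finset.mem_symmDiff, Finset.mem_insert, not_or] at hx
      have : x = s := by tauto
      rw [this]; exact hs

theorem t_J4 {n : ℕ} (W S : Finset (Fin n)) (hS : S.Nonempty) :
    ∃ l : StrongDual ℝ (E n), am l = ST W S := by
  classical
  refine ⟨∑ i ∈ Sᶜ, (if i ∈ W then (-1 : ℝ) else 1) • (EuclideanSpace.proj i : E n →L[ℝ] ℝ), ?_⟩
  have hl : ∀ A : Finset (Fin n),
      (∑ i ∈ Sᶜ, (if i ∈ W then (-1 : ℝ) else 1) • (EuclideanSpace.proj i : E n →L[ℝ] ℝ)) (pt A) =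
      ∑ i ∈ Sᶜ, if i ∈ symmDiff A W then (-1 : ℝ) else 1 := by
    intro A
    rw [ContinuousLinearMap.sum_apply]
    apply Finset.sum_congr rfl
    intro i _
    rw [← J4_term W A i]
    rfl
  have hle : ∀ (A : Finset (Fin n)) (i : Fin n),
      (if i ∈ symmDiff A W then (-1 : ℝ) else 1) ≤ 1 := by
    intro A i
    split_ifs <;> norm_num
  ext A
  simp only [am, ST, Set.mem_setOf_eq, hl]
  constructor
  · rintro ⟨hA, h⟩
    refine ⟨hA, fun i0 hi0 => ?_⟩
    by_contra hiS
    obtain ⟨B, hB, hBS⟩ := J4_even W S hS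
    have h1 := h B hB
    have h2 : ∑ i ∈ Sᶜ, (if i ∈ symmDiff A W then (-1 : ℝ) else 1) <
        ∑ i ∈ Sᶜ, (if i ∈ symmDiff B W then (-1 : ℝ) else 1) := by
      apply Finset.sum_lt_sum
      · intro i hi
        have : i ∉ symmDiff B W := fun hc => (Finset.mem_compl.1 hi) (hBS hc)
        rw [if_neg this]
        exact hle A i
      · refine ⟨i0, Finset.mem_compl.2 hiS, ?_⟩
        have : i0 ∉ symmDiff B W := fun hc => hiS (hBS hc)
        rw [if_neg this, if_pos hi0]
        norm_num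
    linarith
  · rintro ⟨hA, h⟩
    refine ⟨hA, fun B _ => ?_⟩
    apply Finset.sum_le_sum
    intro i hi
    have : i ∉ symmDiff A W := fun hc => (Finset.mem_compl.1 hi) (h hc)
    rw [if_neg this]
    exact hle B i

end DC99
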